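import Mathlib

set_option autoImplicit false

open scoped ENNReal BigOperators

namespace Pool.Agent.Results.MP_a09a4b_an.MixedBeatsAlpern

/-- The answer to the guess `g` when the secret is `h`: `true` iff the guess is too low. -/
noncomputable def answer (g h : ℝ) : Bool := if g < h then true else false

/-- The answers received before guess number `n` when the guessing rule `s` is played against the
secret `h` (in the order received). -/
noncomputable def answers (s : List Bool → ℝ) (h : ℝ) : ℕ → List Bool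
  | 0 => []
  | n + 1 => answers s h n ++ [answer (s (answers s h n)) h]

/-- Guess number `n` (counted from `0`) when `s` is played against `h`. -/
noncomputable def guessAt (s : List Bool → ℝ) (h : ℝ) (n : ℕ) : ℝ := s (answers s h n)

/-- The payoff `P(h) = ∑ |g_n - h|`, summed over all guesses made; play stops once a guess is `h`. -/
noncomputable def payoff (s : List Bool → ℝ) (h : ℝ) : ℝ≥0∞ :=
  ∑' n : ℕ, if (∃ i < n, guessAt s h i = h) then 0 else ENNReal.ofReal |guessAt s h n - h|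

/-- State `(a, b, k)`: current interval `[a, b]` and `k = #(too low) - #(too high)`. -/
noncomputable def step (lam : ℤ → ℝ) (st : ℝ × ℝ × ℤ) (x : Bool) : ℝ × ℝ × ℤ :=
  let g := lam st.2.2 * st.1 + (1 - lam st.2.2) * st.2.1
  if x then (g, st.2.1, st.2.2 + 1) else (st.1, g, st.2.2 - 1)

/-- The rule that guesses `lam k * a + (1 - lam k) * b` in state `(a, b, k)`, started at `st`. -/
noncomputable def ruleFrom (lam : ℤ → ℝ) (st : ℝ × ℝ × ℤ) (l : List Bool) : ℝ :=
  let s := l.foldl (step lam) st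
  lam s.2.2 * s.1 + (1 - lam s.2.2) * s.2.1

/-- The rule of the family `lam` on `[0,1]`. -/
noncomputable def rule (lam : ℤ → ℝ) : List Bool → ℝ := ruleFrom lam (0, 1, 0)

/-- `lam` is Alpern's family and `v` its common value. -/
def IsAlpern (lam : ℤ → ℝ) (v : ℝ≥0∞) : Prop :=
  (∀ k, 0 < lam k ∧ lam k < 1) ∧
    ∀ h ∈ Set.Icc (0 : ℝ) 1, (∀ l, rule lam l ≠ h) → payoff (rule lam) h = v

/-! ### One step of play -/

/-- the rule after the first answer `x` -/
def tl (s : List Bool → ℝ) (x : Bool) : List Bool → ℝ := fun l => s (x :: l)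

lemma answers_succ (s : List Bool → ℝ) (h : ℝ) (n : ℕ) :
    answers s h (n + 1) = answer (s []) h :: answers (tl s (answer (s []) h)) h n := by
  induction n with
  | zero => simp [answers]
  | succ n ih =>
    rw [answers, ih]
    conv_rhs => rw [answers]
    simp [tl]

lemma guessAt_zero (s : List Bool → ℝ) (h : ℝ) : guessAt s h 0 = s [] := rfl

lemma guessAt_succ (s : List Bool → ℝ) (h : ℝ) (n : ℕ) :
    guessAt s h (n + 1) = guessAt (tl s (answer (s []) h)) h n := by
  rw [guessAt, answers_succ, guessAt, tl]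

/-- summand of the payoff -/
noncomputable def term (s : List Bool → ℝ) (h : ℝ) (n : ℕ) : ℝ≥0∞ :=
  if (∃ i < n, guessAt s h i = h) then 0 else ENNReal.ofReal |guessAt s h n - h|

lemma payoff_eq (s : List Bool → ℝ) (h : ℝ) : payoff s h = ∑' n, term s h n := rfl

lemma term_zero (s : List Bool → ℝ) (h : ℝ) : term s h 0 = ENNReal.ofReal |s [] - h| := by
  simp [term, guessAt_zero]

lemma term_succ (s : List Bool → ℝ) (h : ℝ) (n : ℕ) (h0 : s [] ≠ h) :
    term s h (n + 1) = term (tl s (answer (s []) h)) h n := by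
  unfold term
  have : (∃ i < n + 1, guessAt s h i = h) ↔
      ∃ i < n, guessAt (tl s (answer (s []) h)) h i = h := by
    constructor
    · rintro ⟨i, hi, e⟩
      cases i with
      | zero => exact absurd e h0
      | succ i => exact ⟨i, by omega, by rw [← guessAt_succ]; exact e⟩
    · rintro ⟨i, hi, e⟩
      exact ⟨i + 1, by omega, by rw [guessAt_succ]; exact e⟩
  simp only [this, guessAt_succ]

lemma term_succ_of_eq (s : List Bool → ℝ) (h : ℝ) (n : ℕ) (h0 : s [] = h) :
    term s h (n + 1) = 0 := by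
  unfold term
  rw [if_pos]
  exact ⟨0, by omega, h0⟩

lemma payoff_of_eq (s : List Bool → ℝ) (h : ℝ) (h0 : s [] = h) : payoff s h = 0 := by
  rw [payoff_eq, ENNReal.tsum_eq_zero]
  intro n
  cases n with
  | zero => simp [term_zero, h0]
  | succ n => exact term_succ_of_eq s h n h0

lemma payoff_step (s : List Bool → ℝ) (h : ℝ) (h0 : s [] ≠ h) :
    payoff s h = ENNReal.ofReal |s [] - h| + payoff (tl s (answer (s []) h)) h := by
  rw [payoff_eq, payoff_eq, tsum_eq_zero_add' ENNReal.summable, term_zero]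
  congr 1
  exact tsum_congr fun n => term_succ s h n h0

/-! ### Upper bounds by invariants -/

/-- Upper bound principle: an invariant set of pairs (rule, bound). -/
lemma payoff_le_of_invariant (h : ℝ) (I : (List Bool → ℝ) → ℝ → Prop)
    (nonneg : ∀ s B, I s B → 0 ≤ B)
    (stp : ∀ s B, I s B → s [] ≠ h →
      ∃ B', I (tl s (answer (s []) h)) B' ∧ |s [] - h| + B' ≤ B) :
    ∀ s B, I s B → payoff s h ≤ ENNReal.ofReal B := by
  intro s B hI
  rw [payoff_eq]
  refine ENNReal.tsum_le_of_sum_range_le ?_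
  intro n
  induction n generalizing s B with
  | zero => simp
  | succ n ih =>
    rw [Finset.sum_range_succ']
    by_cases h0 : s [] = h
    · have h1 : ∀ i, term s h (i + 1) = 0 := fun i => term_succ_of_eq s h i h0
      simp [h1, term_zero, h0]
    · obtain ⟨B', hI', hB⟩ := stp s B hI h0
      have h1 : ∀ i, term s h (i + 1) = term (tl s (answer (s []) h)) h i :=
        fun i => term_succ s h i h0
      simp only [h1, term_zero]
      calc _ ≤ ENNReal.ofReal B' + ENNReal.ofReal |s [] - h| := by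
              gcongr
              exact ih _ _ hI'
        _ = ENNReal.ofReal (B' + |s [] - h|) := by
              rw [ENNReal.ofReal_add (nonneg _ _ hI') (abs_nonneg _)]
        _ ≤ ENNReal.ofReal B := ENNReal.ofReal_le_ofReal (by linarith)

/-! ### An explicit continuation strategy -/

/-- `eps k`, with values `5/8, 1/4, 2/25, 1/50, 1/100, 1/200, ...` -/
noncomputable def eps : ℕ → ℝ
  | 0 => 5 / 8
  | 1 => 1 / 4
  | 2 => 2 / 25
  | n + 3 => 1 / 50 / 2 ^ n

/-- the parameters `lam k` of the continuation for `k ≥ 0` -/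
noncomputable def tau : ℕ → ℝ
  | 0 => 1 / 2
  | 1 => 3 / 13
  | 2 => 19 / 250
  | 3 => 49 / 2500
  | n + 4 => 1 / 50 / 2 ^ (n + 1) / 2

/-- bounds for the continuation cost -/
noncomputable def U : ℤ → ℝ
  | Int.ofNat n => n + eps n
  | Int.negSucc n => eps (n + 1)

/-- parameters of the continuation -/
noncomputable def lamC : ℤ → ℝ
  | Int.ofNat n => tau n
  | Int.negSucc n => 1 - tau (n + 1)

lemma eps_pos (n : ℕ) : 0 < eps n := by
  match n with
  | 0 => norm_num [eps]
  | 1 => norm_num [eps]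
  | 2 => norm_num [eps]
  | n + 3 => simp only [eps]; positivity

lemma tau_pos (n : ℕ) : 0 < tau n := by
  match n with
  | 0 => norm_num [tau]
  | 1 => norm_num [tau]
  | 2 => norm_num [tau]
  | 3 => norm_num [tau]
  | n + 4 => simp only [tau]; positivity

lemma tau_lt (n : ℕ) : tau n < 1 := by
  match n with
  | 0 => norm_num [tau]
  | 1 => norm_num [tau]
  | 2 => norm_num [tau]
  | 3 => norm_num [tau]
  | n + 4 =>
    simp only [tau]
    have : (1:ℝ) ≤ 2 ^ (n + 1) := one_le_pow₀ (by norm_num)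
    rw [div_div, div_div, div_lt_one (by positivity)]
    linarith

lemma P1 (n : ℕ) : tau (n + 1) * (1 + eps (n + 2)) ≤ eps (n + 1) := by
  match n with
  | 0 => norm_num [tau, eps]
  | 1 => norm_num [tau, eps]
  | 2 => norm_num [tau, eps]
  | n + 3 =>
    simp only [tau, eps]
    have h2 : (1:ℝ) ≤ 2 ^ n := one_le_pow₀ (by norm_num)
    have h3 : (0:ℝ) < 1 / 2 ^ n := by positivity
    have h4 : (1:ℝ) / 2 ^ n ≤ 1 := by
      rw [div_le_one (by positivity)]; exact h2
    have e1 : (1:ℝ) / 50 / 2 ^ (n + 1) = (1 / 2 ^ n) / 100 := by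
      rw [pow_succ]; field_simp; norm_num
    have e2 : (1:ℝ) / 50 / 2 ^ (n + 2) = (1 / 2 ^ n) / 200 := by
      rw [pow_succ, pow_succ]; field_simp; norm_num
    rw [e1, e2]
    nlinarith

lemma P2 (n : ℕ) : (1 - tau (n + 1)) * ((n + 1) + eps n) ≤ (n + 1) + eps (n + 1) := by
  match n with
  | 0 => norm_num [tau, eps]
  | 1 => norm_num [tau, eps]
  | 2 => norm_num [tau, eps]
  | n + 3 =>
    simp only [tau, eps]
    have h3 : (0:ℝ) < 1 / 2 ^ n := by positivity
    have e0 : (1:ℝ) / 50 / 2 ^ n = (1 / 2 ^ n) / 50 := by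
      field_simp
    have e1 : (1:ℝ) / 50 / 2 ^ (n + 1) = (1 / 2 ^ n) / 100 := by
      rw [pow_succ]; field_simp; norm_num
    rw [e1, e0]
    have hn : (0:ℝ) ≤ n := Nat.cast_nonneg n
    push_cast
    nlinarith [mul_nonneg hn h3.le, mul_pos h3 h3]

lemma lamC_mem (k : ℤ) : 0 < lamC k ∧ lamC k < 1 := by
  cases k with
  | ofNat n => exact ⟨tau_pos n, tau_lt n⟩
  | negSucc n =>
    simp only [lamC]
    have := tau_pos (n + 1)
    have := tau_lt (n + 1)
    constructor <;> linarith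

lemma U_nonneg (k : ℤ) : 0 ≤ U k := by
  cases k with
  | ofNat n =>
    have : (0:ℝ) ≤ n := Nat.cast_nonneg n
    have := eps_pos n
    simp only [U]; linarith
  | negSucc n => exact (eps_pos (n + 1)).le

lemma le_U (k : ℤ) : (k : ℝ) ≤ U k := by
  cases k with
  | ofNat n =>
    have := eps_pos n
    simp only [U, Int.ofNat_eq_natCast, Int.cast_natCast]
    linarith
  | negSucc n =>
    have h1 := eps_pos (n + 1)
    have h2 : ((Int.negSucc n : ℤ) : ℝ) = -((n : ℝ) + 1) := by
      rw [Int.cast_negSucc]; push_cast; ring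
    rw [h2]
    have : (0:ℝ) ≤ n := Nat.cast_nonneg n
    simp only [U]
    linarith

lemma U_left (k : ℤ) : (1 - lamC k) * (1 + U (k - 1)) ≤ U k := by
  match k with
  | Int.ofNat 0 =>
    have e : (Int.ofNat 0 - 1 : ℤ) = Int.negSucc 0 := rfl
    rw [e]
    norm_num [U, lamC, tau, eps]
  | Int.ofNat (n + 1) =>
    have e : (Int.ofNat (n + 1) - 1 : ℤ) = Int.ofNat n := by simp
    rw [e]
    have := P2 n
    simp only [U, lamC]
    push_cast
    calc _ = (1 - tau (n + 1)) * ((n + 1) + eps n) := by ring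
      _ ≤ _ := this
  | Int.negSucc n =>
    have e : (Int.negSucc n - 1 : ℤ) = Int.negSucc (n + 1) := rfl
    rw [e]
    have := P1 n
    simp only [U, lamC]
    calc _ = tau (n + 1) * (1 + eps (n + 2)) := by ring_nf
      _ ≤ _ := this

lemma U_right (k : ℤ) : k * (1 - lamC k) + lamC k * U (k + 1) ≤ U k := by
  match k with
  | Int.ofNat 0 =>
    have e : (Int.ofNat 0 + 1 : ℤ) = Int.ofNat 1 := rfl
    rw [e]
    norm_num [U, lamC, tau, eps]
  | Int.ofNat (n + 1) =>
    have e : (Int.ofNat (n + 1) + 1 : ℤ) = Int.ofNat (n + 2) := rfl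
    rw [e]
    have := P1 n
    simp only [U, lamC, Int.ofNat_eq_natCast, Int.cast_natCast]
    push_cast
    nlinarith
  | Int.negSucc 0 =>
    have e : (Int.negSucc 0 + 1 : ℤ) = Int.ofNat 0 := rfl
    rw [e]
    norm_num [U, lamC, tau, eps]
  | Int.negSucc (n + 1) =>
    have e : (Int.negSucc (n + 1) + 1 : ℤ) = Int.negSucc n := by
      rw [Int.negSucc_eq, Int.negSucc_eq]; push_cast; ring
    rw [e]
    have := P2 (n + 1)
    have h2 : ((Int.negSucc (n + 1) : ℤ) : ℝ) = -((n : ℝ) + 1 + 1) := by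
      rw [Int.cast_negSucc]; push_cast; ring
    rw [h2]
    simp only [U, lamC]
    push_cast at this
    nlinarith

lemma tl_ruleFrom (lam : ℤ → ℝ) (st : ℝ × ℝ × ℤ) (x : Bool) :
    tl (ruleFrom lam st) x = ruleFrom lam (step lam st x) := rfl

lemma cont_bound (h : ℝ) (x y : ℝ) (k : ℤ) (h1 : x ≤ h) (h2 : h ≤ y) :
    payoff (ruleFrom lamC (x, y, k)) h ≤ ENNReal.ofReal ((y - x) * U k + k * x - k * h) := by
  apply payoff_le_of_invariant h
    (fun s B => ∃ (x y : ℝ) (k : ℤ), x ≤ h ∧ h ≤ y ∧ s = ruleFrom lamC (x, y, k) ∧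
      B = (y - x) * U k + k * x - k * h)
  · rintro s B ⟨x, y, k, h1, h2, -, rfl⟩
    have a1 := U_nonneg k
    have a2 := le_U k
    rcases le_total 0 (k : ℝ) with hk | hk
    · nlinarith [mul_nonneg hk (sub_nonneg.2 h2), mul_nonneg (sub_nonneg.2 a2) (sub_nonneg.2 (h1.trans h2))]
    · nlinarith [mul_nonneg (neg_nonneg.2 hk) (sub_nonneg.2 h1), mul_nonneg a1 (sub_nonneg.2 (h1.trans h2))]
  · rintro s B ⟨x, y, k, h1, h2, rfl, rfl⟩ hne
    have hs : ruleFrom lamC (x, y, k) [] = lamC k * x + (1 - lamC k) * y := rfl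
    rw [hs] at hne ⊢
    rw [tl_ruleFrom]
    set g := lamC k * x + (1 - lamC k) * y with hg
    have hyx : 0 ≤ y - x := by linarith
    by_cases hlt : g < h
    · have ha : answer g h = true := by simp [answer, hlt]
      rw [ha]
      refine ⟨(y - g) * U (k + 1) + ((k + 1 : ℤ) : ℝ) * g - ((k + 1 : ℤ) : ℝ) * h,
        ⟨g, y, k + 1, hlt.le, h2, ?_, rfl⟩, ?_⟩
      · simp [step, hg]
      · rw [abs_of_neg (by linarith)]
        have := mul_le_mul_of_nonneg_left (U_right k) hyx
        push_cast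
        have e1 : y - g = (y - x) * lamC k := by rw [hg]; ring
        rw [e1]
        have e2 : g = x + (1 - lamC k) * (y - x) := by rw [hg]; ring
        rw [e2]
        nlinarith
    · have ha : answer g h = false := by simp [answer, hlt]
      have hgt : h < g := lt_of_le_of_ne (not_lt.1 hlt) (Ne.symm hne)
      rw [ha]
      refine ⟨(g - x) * U (k - 1) + ((k - 1 : ℤ) : ℝ) * x - ((k - 1 : ℤ) : ℝ) * h,
        ⟨x, g, k - 1, h1, hgt.le, ?_, rfl⟩, ?_⟩
      · simp [step, hg]
      · rw [abs_of_pos (by linarith)]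
        have := mul_le_mul_of_nonneg_left (U_left k) hyx
        push_cast
        have e1 : g - x = (y - x) * (1 - lamC k) := by rw [hg]; ring
        have e2 : g = x + (1 - lamC k) * (y - x) := by rw [hg]; ring
        nlinarith
  · exact ⟨x, y, k, h1, h2, rfl, rfl⟩

/-! ### Finite trees of first guesses -/

/-- trees of first guesses, guess `g` standing for `g/28` -/
inductive Tr
  | E : Tr
  | n : ℕ → Tr → Tr → Tr

/-- mirror image -/
def Tr.mir : Tr → Tr
  | Tr.E => Tr.E
  | Tr.n g l r => Tr.n (28 - g) r.mir l.mir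

/-- guessing rule of a tree, continued by the explicit continuation -/
noncomputable def ruleT : Tr → ℝ → ℝ → ℤ → List Bool → ℝ
  | Tr.E, a, b, k, l => ruleFrom lamC (a, b, k) l
  | Tr.n g _ _, _, _, _, [] => (g : ℝ) / 28
  | Tr.n g _ r, _, b, k, true :: l => ruleT r ((g : ℝ) / 28) b (k + 1) l
  | Tr.n g l _, a, _, k, false :: l' => ruleT l a ((g : ℝ) / 28) (k - 1) l'

/-- `200 * eps k` (an upper bound for `k ≥ 6`) -/
def epsI : ℕ → ℤ
  | 0 => 125
  | 1 => 50
  | 2 => 16
  | 3 => 4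
  | 4 => 2
  | _ => 1

/-- integer version of `200 * U k` -/
def UI (k : ℤ) : ℤ := if 0 ≤ k then 200 * k + epsI k.toNat else epsI (-k).toNat

/-- cost bound in units of `1/5600` for the cell `[c/28,(c+1)/28]` -/
def ubI : Tr → ℤ → ℤ → ℤ → ℤ → ℤ
  | Tr.E, a, b, k, _ => 200 * k * a + (b - a) * UI k
  | Tr.n g l r, a, b, k, c =>
    if c < g then g * 200 + ubI l a g (k - 1) c else -(g * 200) + ubI r g b (k + 1) c

/-- well-formedness -/
def wf : Tr → ℤ → ℤ → Bool
  | Tr.E, _, _ => true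
  | Tr.n g l r, a, b => decide (a < g) && decide ((g : ℤ) < b) && wf l a g && wf r g b

lemma eps_le_epsI (n : ℕ) : eps n ≤ (epsI n : ℝ) / 200 := by
  match n with
  | 0 => norm_num [eps, epsI]
  | 1 => norm_num [eps, epsI]
  | 2 => norm_num [eps, epsI]
  | 3 => norm_num [eps, epsI]
  | 4 => norm_num [eps, epsI]
  | n + 5 =>
    have : (1:ℝ) ≤ 2 ^ n := one_le_pow₀ (by norm_num)
    have e : eps (n + 5) = 1 / (200 * 2 ^ n) := by
      simp only [eps]; rw [pow_add]; field_simp; norm_num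
    rw [e]
    simp only [epsI]
    rw [div_le_div_iff₀ (by positivity) (by norm_num)]
    push_cast
    linarith

lemma U_le_UI (k : ℤ) : U k ≤ (UI k : ℝ) / 200 := by
  cases k with
  | ofNat n =>
    have := eps_le_epsI n
    simp only [U, UI]
    rw [if_pos (by simp)]
    push_cast
    simp only [Int.ofNat_eq_natCast, Int.toNat_natCast, Int.cast_natCast]
    linarith
  | negSucc n =>
    have := eps_le_epsI (n + 1)
    simp only [U, UI]
    rw [if_neg (by simp)]
    simpa using this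

lemma tree_bound (c : ℤ) (h : ℝ) (hc1 : (c : ℝ) / 28 ≤ h) (hc2 : h ≤ ((c : ℝ) + 1) / 28) (t : Tr) :
    ∀ (a b k : ℤ), wf t a b = true → a ≤ c → c < b →
      0 ≤ (ubI t a b k c : ℝ) / 5600 - k * h ∧
      payoff (ruleT t ((a : ℝ) / 28) ((b : ℝ) / 28) k) h
        ≤ ENNReal.ofReal ((ubI t a b k c : ℝ) / 5600 - k * h) := by
  induction t with
  | E =>
    intro a b k _ ha hb
    have ha' : (a : ℝ) ≤ c := by exact_mod_cast ha
    have hb' : (c : ℝ) + 1 ≤ b := by exact_mod_cast hb
    have h1 : (a : ℝ) / 28 ≤ h := le_trans (by linarith) hc1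
    have h2 : h ≤ (b : ℝ) / 28 := le_trans hc2 (by linarith)
    have hU := U_le_UI k
    have key : ((b : ℝ) / 28 - (a : ℝ) / 28) * U k + k * ((a : ℝ) / 28) - k * h ≤
        (ubI Tr.E a b k c : ℝ) / 5600 - k * h := by
      simp only [ubI]
      push_cast
      have : 0 ≤ (b : ℝ) / 28 - (a : ℝ) / 28 := by linarith
      nlinarith
    have nn : 0 ≤ ((b : ℝ) / 28 - (a : ℝ) / 28) * U k + k * ((a : ℝ) / 28) - k * h := by
      have a1 := U_nonneg k
      have a2 := le_U k
      rcases le_total 0 (k : ℝ) with hk | hk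
      · nlinarith [mul_nonneg hk (sub_nonneg.2 h2), mul_nonneg (sub_nonneg.2 a2) (sub_nonneg.2 (h1.trans h2))]
      · nlinarith [mul_nonneg (neg_nonneg.2 hk) (sub_nonneg.2 h1), mul_nonneg a1 (sub_nonneg.2 (h1.trans h2))]
    refine ⟨nn.trans key, ?_⟩
    have e : ruleT Tr.E ((a : ℝ) / 28) ((b : ℝ) / 28) k = ruleFrom lamC ((a : ℝ) / 28, (b : ℝ) / 28, k) := by
      funext l; cases l <;> rfl
    rw [e]
    exact (cont_bound h _ _ k h1 h2).trans (ENNReal.ofReal_le_ofReal key)
  | n g l r ihl ihr =>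
    intro a b k hw ha hb
    simp only [wf, Bool.and_eq_true, decide_eq_true_eq] at hw
    obtain ⟨⟨⟨hag, hgb⟩, hwl⟩, hwr⟩ := hw
    have hs : ruleT (Tr.n g l r) ((a : ℝ) / 28) ((b : ℝ) / 28) k [] = (g : ℝ) / 28 := rfl
    by_cases hcg : c < g
    · obtain ⟨nn, hp⟩ := ihl a g (k - 1) hwl ha hcg
      have hg : h ≤ (g : ℝ) / 28 := by
        refine hc2.trans ?_
        have : (c : ℝ) + 1 ≤ g := by exact_mod_cast hcg
        linarith
      have eB : (ubI (Tr.n g l r) a b k c : ℝ) / 5600 - k * h =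
          ((g : ℝ) / 28 - h) + ((ubI l a g (k - 1) c : ℝ) / 5600 - ((k - 1 : ℤ) : ℝ) * h) := by
        simp only [ubI, if_pos hcg]
        push_cast
        ring
      rw [eB]
      refine ⟨by linarith, ?_⟩
      by_cases hne : (g : ℝ) / 28 = h
      · rw [payoff_of_eq _ _ (hs.trans hne)]; exact bot_le
      · rw [payoff_step _ _ (by rw [hs]; exact hne), hs]
        have hlt : ¬ (g : ℝ) / 28 < h := not_lt.2 hg
        have ha' : answer ((g : ℝ) / 28) h = false := by simp [answer, hlt]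
        rw [ha']
        have et : tl (ruleT (Tr.n g l r) ((a : ℝ) / 28) ((b : ℝ) / 28) k) false =
            ruleT l ((a : ℝ) / 28) (((g : ℤ) : ℝ) / 28) (k - 1) := by
          funext l'; simp [tl, ruleT]
        rw [et, abs_of_nonneg (by linarith), ENNReal.ofReal_add (by linarith) nn]
        gcongr
    · have hcg' : (g : ℤ) ≤ c := not_lt.1 hcg
      obtain ⟨nn, hp⟩ := ihr g b (k + 1) hwr hcg' hb
      have hg : (g : ℝ) / 28 ≤ h := by
        refine le_trans ?_ hc1
        have : (g : ℝ) ≤ c := by exact_mod_cast hcg'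
        linarith
      have eB : (ubI (Tr.n g l r) a b k c : ℝ) / 5600 - k * h =
          (h - (g : ℝ) / 28) + ((ubI r g b (k + 1) c : ℝ) / 5600 - ((k + 1 : ℤ) : ℝ) * h) := by
        simp only [ubI, if_neg hcg]
        push_cast
        ring
      rw [eB]
      refine ⟨by linarith, ?_⟩
      by_cases hne : (g : ℝ) / 28 = h
      · rw [payoff_of_eq _ _ (hs.trans hne)]; exact bot_le
      · rw [payoff_step _ _ (by rw [hs]; exact hne), hs]
        have hlt : (g : ℝ) / 28 < h := lt_of_le_of_ne hg hne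
        have ha' : answer ((g : ℝ) / 28) h = true := by simp [answer, hlt]
        rw [ha']
        have et : tl (ruleT (Tr.n g l r) ((a : ℝ) / 28) ((b : ℝ) / 28) k) true =
            ruleT r (((g : ℤ) : ℝ) / 28) ((b : ℝ) / 28) (k + 1) := by
          funext l'; simp [tl, ruleT]
        rw [et, abs_of_nonpos (by linarith), ENNReal.ofReal_add (by linarith) nn]
        have : -((g : ℝ) / 28 - h) = h - (g : ℝ) / 28 := by ring
        rw [this]
        gcongr

open Tr in
/-- the trees of the mixture with their weights (in units of `1/1000`), up to mirror images -/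
def base : List (ℕ × Tr) :=
  [(29, (n 12 (n 2 E (n 5 (n 3 E E) (n 9 E (n 11 E E)))) (n 24 (n 16 (n 14 (n 13 E E) E) (n 20 E (n 23 E E))) (n 27 (n 25 E (n 26 E E)) E)))),
   (58, (n 14 (n 3 E (n 9 (n 5 (n 4 E E) E) (n 12 E (n 13 E E)))) (n 25 (n 19 (n 16 (n 15 E E) E) (n 23 E (n 24 E E))) E))),
   (28, (n 13 (n 2 E (n 7 (n 4 (n 3 E E) E) (n 11 E (n 12 E E)))) (n 24 (n 17 (n 14 E (n 15 E E)) (n 21 E (n 23 E E))) (n 27 (n 25 E (n 26 E E)) E)))),
   (8, (n 13 (n 2 E (n 7 (n 4 (n 3 E E) E) (n 10 E (n 12 E E)))) (n 24 (n 17 (n 14 E (n 15 E E)) (n 21 E (n 23 E E))) (n 27 (n 25 E (n 26 E E)) E)))),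
   (4, (n 12 (n 2 E (n 6 (n 3 E (n 4 E E)) (n 9 E (n 11 E E)))) (n 24 (n 16 (n 14 (n 13 E E) E) (n 20 E (n 23 E E))) (n 27 (n 25 E (n 26 E E)) E)))),
   (67, (n 13 (n 2 E (n 6 (n 4 (n 3 E E) E) (n 10 E (n 12 E E)))) (n 24 (n 18 (n 15 (n 14 E E) E) (n 22 E (n 23 E E))) (n 27 (n 25 E (n 26 E E)) E)))),
   (85, (n 14 (n 3 E (n 8 (n 5 (n 4 E E) E) (n 12 E (n 13 E E)))) (n 25 (n 20 (n 16 (n 15 E E) E) (n 23 E (n 24 E E))) E))),
   (15, (n 13 (n 2 E (n 6 (n 3 E (n 4 E E)) (n 10 E (n 12 E E)))) (n 24 (n 17 (n 14 E (n 15 E E)) (n 21 E (n 23 E E))) (n 27 (n 25 E (n 26 E E)) E)))),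
   (52, (n 13 (n 2 E (n 7 (n 4 (n 3 E E) E) (n 11 E (n 12 E E)))) (n 24 (n 17 (n 15 (n 14 E E) E) (n 21 E (n 23 E E))) (n 27 (n 25 E (n 26 E E)) E)))),
   (9, (n 12 (n 2 E (n 6 (n 4 (n 3 E E) E) (n 9 E (n 11 E E)))) (n 23 (n 16 (n 14 (n 13 E E) E) (n 20 E (n 22 E E))) (n 27 (n 25 E (n 26 E E)) E)))),
   (47, (n 13 (n 2 E (n 7 (n 4 (n 3 E E) E) (n 11 E (n 12 E E)))) (n 25 (n 18 (n 15 (n 14 E E) E) (n 22 E (n 24 E E))) E))),
   (58, (n 12 (n 2 E (n 5 (n 3 E E) (n 9 E (n 11 E E)))) (n 23 (n 16 (n 14 (n 13 E E) E) (n 20 E (n 22 E E))) (n 27 (n 25 E (n 26 E E)) E)))),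
   (40, (n 14 (n 3 E (n 9 (n 5 (n 4 E E) E) E)) (n 25 (n 19 E (n 23 E (n 24 E E))) E)))]

/-- the mixture: every tree of `base` and its mirror image -/
def mix : List (ℕ × Tr) := base ++ base.map (fun p => (p.1, p.2.mir))

lemma mix_sum : (mix.map (fun p => p.1)).sum = 1000 := by decide

lemma mix_wf : ∀ p ∈ mix, wf p.2 0 28 = true := by decide

lemma mix_cost : ∀ c ∈ List.range 28,
    (mix.map (fun p => (p.1 : ℤ) * ubI p.2 0 28 0 c)).sum ≤ 3490000 := by decide +kernel

/-! ### The mixed strategy -/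

/-- weights as a probability mass function on indices -/
noncomputable def idx : PMF (Fin mix.length) :=
  PMF.ofFintype (fun i => ((mix[i.1]).1 : ℝ≥0∞) / 1000) (by
    have h := Fin.sum_univ_fun_getElem mix (fun p => ((p.1 : ℕ) : ℝ≥0∞) / 1000)
    rw [h]
    have h2 : (mix.map (fun p => ((p.1 : ℕ) : ℝ≥0∞) / 1000)).sum =
        (((mix.map (fun p => p.1)).sum : ℕ) : ℝ≥0∞) / 1000 := by
      generalize mix = L
      induction L with
      | nil => simp
      | cons p L ih =>
        simp only [List.map_cons, List.sum_cons, ih]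
        push_cast
        rw [ENNReal.add_div]
    rw [h2, mix_sum]
    norm_num
    exact ENNReal.div_self (by norm_num) (by norm_num))

/-- the mixed strategy -/
noncomputable def sig : PMF (List Bool → ℝ) := idx.map (fun i => ruleT (mix[i.1]).2 0 1 0)

/-- Expected cost of a mixed strategy against the secret `h`. -/
noncomputable def cost (σ : PMF (List Bool → ℝ)) (h : ℝ) : ℝ≥0∞ := ∑' s, σ s * payoff s h

lemma cost_map {ι : Type} [Fintype ι] (p : PMF ι) (f : ι → (List Bool → ℝ)) (h : ℝ) :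
    cost (p.map f) h = ∑ i, p i * payoff (f i) h := by
  classical
  unfold cost
  have : ∀ s, (p.map f) s * payoff s h = ∑ i, (if s = f i then p i * payoff (f i) h else 0) := by
    intro s
    rw [PMF.map_apply, tsum_fintype, Finset.sum_mul]
    refine Finset.sum_congr rfl fun i _ => ?_
    by_cases e : s = f i
    · simp [e]
    · simp [e]
  simp_rw [this]
  rw [Summable.tsum_finsetSum (fun _ _ => ENNReal.summable)]
  refine Finset.sum_congr rfl fun i _ => ?_
  rw [tsum_eq_single (f i)]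
  · simp
  · intro s hs
    simp [hs]

lemma exists_cell (h : ℝ) (h0 : 0 ≤ h) (h1 : h ≤ 1) :
    ∃ c : ℕ, c < 28 ∧ (c : ℝ) / 28 ≤ h ∧ h ≤ ((c : ℝ) + 1) / 28 := by
  by_cases hh : h = 1
  · exact ⟨27, by norm_num, by subst hh; norm_num, by subst hh; norm_num⟩
  · have hlt : h < 1 := lt_of_le_of_ne h1 hh
    refine ⟨⌊28 * h⌋₊, ?_, ?_, ?_⟩
    · rw [Nat.floor_lt (by positivity)]
      push_cast
      linarith
    · have := Nat.floor_le (show (0:ℝ) ≤ 28 * h by positivity)
      linarith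
    · have := Nat.lt_floor_add_one (28 * h)
      linarith

lemma sig_cost (h : ℝ) (h0 : 0 ≤ h) (h1 : h ≤ 1) :
    cost sig h ≤ ENNReal.ofReal (6233 / 10000) := by
  obtain ⟨c, hc, hc1, hc2⟩ := exists_cell h h0 h1
  have hb : ∀ p ∈ mix, 0 ≤ (ubI p.2 0 28 0 c : ℝ) / 5600 ∧
      payoff (ruleT p.2 0 1 0) h ≤ ENNReal.ofReal ((ubI p.2 0 28 0 c : ℝ) / 5600) := by
    intro p hp
    have := tree_bound c h (by simpa using hc1) (by simpa using hc2) p.2 0 28 0
      (mix_wf p hp) (by positivity) (by exact_mod_cast hc)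
    simpa using this
  unfold sig
  rw [cost_map]
  have hi : ∀ i : Fin mix.length, idx i = ((mix[i.1]).1 : ℝ≥0∞) / 1000 := by
    intro i; simp [idx, PMF.ofFintype_apply]
  simp_rw [hi]
  have e := Fin.sum_univ_fun_getElem mix
    (fun p => ((p.1 : ℕ) : ℝ≥0∞) / 1000 * payoff (ruleT p.2 0 1 0) h)
  rw [e]
  have step1 : (mix.map (fun p => ((p.1 : ℕ) : ℝ≥0∞) / 1000 * payoff (ruleT p.2 0 1 0) h)).sum ≤
      ENNReal.ofReal (((mix.map (fun p => (p.1 : ℤ) * ubI p.2 0 28 0 c)).sum : ℤ) / 5600000) ∧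
      (0 : ℝ) ≤ (((mix.map (fun p => (p.1 : ℤ) * ubI p.2 0 28 0 c)).sum : ℤ) : ℝ) / 5600000 := by
    revert hb
    generalize mix = L
    intro hb
    induction L with
    | nil => simp
    | cons p L ih =>
      obtain ⟨ih1, ih2⟩ := ih (fun q hq => hb q (List.mem_cons_of_mem _ hq))
      obtain ⟨a1, a2⟩ := hb p List.mem_cons_self
      simp only [List.map_cons, List.sum_cons]
      have e1 : (((p.1 : ℤ) * ubI p.2 0 28 0 c + (L.map (fun p => (p.1 : ℤ) * ubI p.2 0 28 0 c)).sum : ℤ) : ℝ)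
          / 5600000 = (p.1 : ℝ) / 1000 * ((ubI p.2 0 28 0 c : ℝ) / 5600) +
          (((L.map (fun p => (p.1 : ℤ) * ubI p.2 0 28 0 c)).sum : ℤ) : ℝ) / 5600000 := by
        push_cast; ring
      rw [e1]
      have nn : 0 ≤ (p.1 : ℝ) / 1000 * ((ubI p.2 0 28 0 c : ℝ) / 5600) := by positivity
      refine ⟨?_, by linarith⟩
      rw [ENNReal.ofReal_add nn ih2, ENNReal.ofReal_mul (by positivity)]
      have e2 : ENNReal.ofReal ((p.1 : ℝ) / 1000) = ((p.1 : ℕ) : ℝ≥0∞) / 1000 := by
        rw [ENNReal.ofReal_div_of_pos (by norm_num), ENNReal.ofReal_natCast]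
        norm_num
      rw [e2]
      gcongr
  refine step1.1.trans (ENNReal.ofReal_le_ofReal ?_)
  have := mix_cost c (List.mem_range.2 hc)
  have h3 : (((mix.map (fun p => (p.1 : ℤ) * ubI p.2 0 28 0 c)).sum : ℤ) : ℝ) ≤ 3490000 := by
    exact_mod_cast this
  rw [div_le_div_iff₀ (by norm_num) (by norm_num)]
  linarith

/-! ### Lower bound for the value of Alpern's rule -/

lemma ruleFrom_affine (lam : ℤ → ℝ) (c m : ℝ) (l : List Bool) :
    ∀ (a b : ℝ) (k : ℤ),
      ruleFrom lam (c + m * a, c + m * b, k) l = c + m * ruleFrom lam (a, b, k) l := by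
  induction l with
  | nil => intro a b k; simp only [ruleFrom, List.foldl_nil]; ring
  | cons x l ih =>
    intro a b k
    have e : ∀ st, ruleFrom lam st (x :: l) = ruleFrom lam (step lam st x) l := fun st => rfl
    rw [e, e]
    cases x
    · have h1 : step lam (c + m * a, c + m * b, k) false =
          (c + m * a, c + m * (lam k * a + (1 - lam k) * b), k - 1) := by
        simp only [step]; ext <;> simp; ring
      have h2 : step lam (a, b, k) false = (a, lam k * a + (1 - lam k) * b, k - 1) := by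
        simp [step]
      rw [h1, h2, ih]
    · have h1 : step lam (c + m * a, c + m * b, k) true =
          (c + m * (lam k * a + (1 - lam k) * b), c + m * b, k + 1) := by
        simp only [step]; ext <;> simp; ring
      have h2 : step lam (a, b, k) true = (lam k * a + (1 - lam k) * b, b, k + 1) := by
        simp [step]
      rw [h1, h2, ih]

lemma ruleFrom_mem (lam : ℤ → ℝ) (hl : ∀ k, 0 < lam k ∧ lam k < 1) (l : List Bool) :
    ∀ (a b : ℝ) (k : ℤ), a < b → a < ruleFrom lam (a, b, k) l ∧ ruleFrom lam (a, b, k) l < b := by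
  induction l with
  | nil =>
    intro a b k hab
    obtain ⟨h0, h1⟩ := hl k
    simp only [ruleFrom, List.foldl_nil]
    constructor <;> nlinarith
  | cons x l ih =>
    intro a b k hab
    obtain ⟨h0, h1⟩ := hl k
    have hg1 : a < lam k * a + (1 - lam k) * b := by nlinarith
    have hg2 : lam k * a + (1 - lam k) * b < b := by nlinarith
    have e : ∀ st, ruleFrom lam st (x :: l) = ruleFrom lam (step lam st x) l := fun st => rfl
    rw [e]
    cases x
    · have h2 : step lam (a, b, k) false = (a, lam k * a + (1 - lam k) * b, k - 1) := by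
        simp [step]
      rw [h2]
      have := ih a _ (k - 1) hg1
      exact ⟨this.1, this.2.trans hg2⟩
    · have h2 : step lam (a, b, k) true = (lam k * a + (1 - lam k) * b, b, k + 1) := by
        simp [step]
      rw [h2]
      have := ih _ b (k + 1) hg2
      exact ⟨hg1.trans this.1, this.2⟩

lemma answers_affine (s : List Bool → ℝ) (c m : ℝ) (hm : 0 < m) (h : ℝ) (n : ℕ) :
    answers (fun l => c + m * s l) (c + m * h) n = answers s h n := by
  induction n with
  | zero => rfl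
  | succ n ih =>
    rw [answers, answers, ih]
    congr 2
    unfold answer
    have : (c + m * s (answers s h n) < c + m * h) ↔ s (answers s h n) < h := by
      constructor
      · intro h1
        exact lt_of_mul_lt_mul_left (by linarith) hm.le
      · intro h1
        have := mul_lt_mul_of_pos_left h1 hm
        linarith
    simp only [this]

lemma payoff_affine (s : List Bool → ℝ) (c m : ℝ) (hm : 0 < m) (h : ℝ) :
    payoff (fun l => c + m * s l) (c + m * h) = ENNReal.ofReal m * payoff s h := by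
  unfold payoff
  rw [← ENNReal.tsum_mul_left]
  refine tsum_congr fun n => ?_
  have hg : ∀ i, guessAt (fun l => c + m * s l) (c + m * h) i = c + m * guessAt s h i := by
    intro i
    simp only [guessAt]
    rw [answers_affine s c m hm]
  have he : (∃ i < n, guessAt (fun l => c + m * s l) (c + m * h) i = c + m * h) ↔
      ∃ i < n, guessAt s h i = h := by
    refine exists_congr fun i => and_congr_right fun _ => ?_
    rw [hg]
    constructor
    · intro h1
      have : m * guessAt s h i = m * h := by linarith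
      exact mul_left_cancel₀ hm.ne' this
    · intro h1; rw [h1]
  by_cases hh : ∃ i < n, guessAt s h i = h
  · rw [if_pos (he.2 hh), if_pos hh]; simp
  · rw [if_neg (fun h' => hh (he.1 h')), if_neg hh, hg, ← ENNReal.ofReal_mul hm.le]
    congr 1
    have : c + m * guessAt s h n - (c + m * h) = m * (guessAt s h n - h) := by ring
    rw [this, abs_mul, abs_of_pos hm]

/-- `t` is not a guess of the rule in state `k` on the unit interval. -/
def Gen (lam : ℤ → ℝ) (k : ℤ) (t : ℝ) : Prop := ∀ l, ruleFrom lam (0, 1, k) l ≠ t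

lemma exists_gen (lam : ℤ → ℝ) (k : ℤ) (a b : ℝ) (hab : a < b) : ∃ t, a < t ∧ t < b ∧ Gen lam k t := by
  have hc : (Set.range (ruleFrom lam (0, 1, k))).Countable := Set.countable_range _
  have hd := hc.dense_compl ℝ
  obtain ⟨t, ht, h1, h2⟩ := hd.exists_between hab
  exact ⟨t, h1, h2, fun l hl => ht ⟨l, hl⟩⟩

/-- The rule in state `k` costs `w - k t` at every non-guess `t`. -/
def Cst (lam : ℤ → ℝ) (k : ℤ) (w : ℝ) : Prop :=
  ∀ t, 0 < t → t < 1 → Gen lam k t →
    payoff (ruleFrom lam (0, 1, k)) t ≠ ⊤ ∧ (payoff (ruleFrom lam (0, 1, k)) t).toReal = w - k * t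

lemma Cst_unique (lam : ℤ → ℝ) (k : ℤ) (w w' : ℝ) (h : Cst lam k w) (h' : Cst lam k w') : w = w' := by
  obtain ⟨t, h0, h1, hg⟩ := exists_gen lam k 0 1 one_pos
  have a := (h t h0 h1 hg).2
  have b := (h' t h0 h1 hg).2
  linarith

lemma Cst_left (lam : ℤ → ℝ) (hl : ∀ k, 0 < lam k ∧ lam k < 1) (k : ℤ) (w : ℝ) (h : Cst lam k w) :
    Cst lam (k - 1) (w / (1 - lam k) - 1) := by
  obtain ⟨hl0, hl1⟩ := hl k
  intro t h0 h1 hg
  set g := 1 - lam k with hgdef
  have hg0 : 0 < g := by linarith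
  have hg1 : g < 1 := by linarith
  have hroot : ruleFrom lam (0, 1, k) [] = g := by simp [ruleFrom, hgdef]
  have hstepF : step lam (0, 1, k) false = (0 + g * 0, 0 + g * 1, k - 1) := by
    simp [step, hgdef]
  have hstepT : step lam (0, 1, k) true = (g, 1, k + 1) := by
    simp [step, hgdef]
  have hgt_lt : g * t < g := by nlinarith
  have hgen : Gen lam k (g * t) := by
    intro l
    cases l with
    | nil => rw [hroot]; exact hgt_lt.ne'
    | cons x l =>
      have e : ruleFrom lam (0, 1, k) (x :: l) = ruleFrom lam (step lam (0, 1, k) x) l := rfl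
      rw [e]
      cases x
      · rw [hstepF, ruleFrom_affine]
        intro hcon
        apply hg l
        have : g * ruleFrom lam (0, 1, k - 1) l = g * t := by linarith
        exact mul_left_cancel₀ hg0.ne' this
      · rw [hstepT]
        have := (ruleFrom_mem lam hl l g 1 (k + 1) hg1).1
        exact (hgt_lt.trans this).ne'
  obtain ⟨hfin, hval⟩ := h (g * t) (by positivity) (by nlinarith) hgen
  have hne : ruleFrom lam (0, 1, k) [] ≠ g * t := hgen []
  rw [payoff_step _ _ hne, hroot] at hfin hval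
  have hans : answer g (g * t) = false := by
    unfold answer; rw [if_neg]; exact not_lt.2 hgt_lt.le
  rw [hans, tl_ruleFrom, hstepF] at hfin hval
  have haff : ruleFrom lam (0 + g * 0, 0 + g * 1, k - 1) =
      fun l => 0 + g * ruleFrom lam (0, 1, k - 1) l := by
    funext l; exact ruleFrom_affine lam 0 g l 0 1 (k - 1)
  have hpay : payoff (ruleFrom lam (0 + g * 0, 0 + g * 1, k - 1)) (g * t) =
      ENNReal.ofReal g * payoff (ruleFrom lam (0, 1, k - 1)) t := by
    rw [haff]
    have := payoff_affine (ruleFrom lam (0, 1, k - 1)) 0 g hg0 t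
    simpa using this
  rw [hpay] at hfin hval
  have hfin2 : payoff (ruleFrom lam (0, 1, k - 1)) t ≠ ⊤ := by
    intro hcon
    apply hfin
    rw [hcon, ENNReal.mul_top (by simpa using hg0)]
    simp
  refine ⟨hfin2, ?_⟩
  rw [ENNReal.toReal_add ENNReal.ofReal_ne_top (ENNReal.mul_ne_top ENNReal.ofReal_ne_top hfin2),
    ENNReal.toReal_ofReal (abs_nonneg _), ENNReal.toReal_mul, ENNReal.toReal_ofReal hg0.le,
    abs_of_pos (by linarith)] at hval
  push_cast
  field_simp
  linarith

lemma Cst_right (lam : ℤ → ℝ) (hl : ∀ k, 0 < lam k ∧ lam k < 1) (k : ℤ) (w : ℝ) (h : Cst lam k w) :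
    Cst lam (k + 1) ((w - k * (1 - lam k)) / lam k) := by
  obtain ⟨hl0, hl1⟩ := hl k
  intro t h0 h1 hg
  set g := 1 - lam k with hgdef
  have hg0 : 0 < g := by linarith
  have hg1 : g < 1 := by linarith
  have hlam : lam k = 1 - g := by rw [hgdef]; ring
  rw [hlam]
  have hroot : ruleFrom lam (0, 1, k) [] = g := by simp [ruleFrom, hgdef]
  have hstepF : step lam (0, 1, k) false = (0, g, k - 1) := by
    simp [step, hgdef]
  have hstepT : step lam (0, 1, k) true = (g + (1 - g) * 0, g + (1 - g) * 1, k + 1) := by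
    simp [step, hgdef]
  have hgt_lt : g < g + (1 - g) * t := by nlinarith
  have hgen : Gen lam k (g + (1 - g) * t) := by
    intro l
    cases l with
    | nil => rw [hroot]; exact hgt_lt.ne
    | cons x l =>
      have e : ruleFrom lam (0, 1, k) (x :: l) = ruleFrom lam (step lam (0, 1, k) x) l := rfl
      rw [e]
      cases x
      · rw [hstepF]
        have := (ruleFrom_mem lam hl l 0 g (k - 1) hg0).2
        exact (this.trans hgt_lt).ne
      · rw [hstepT, ruleFrom_affine]
        intro hcon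
        apply hg l
        have : (1 - g) * ruleFrom lam (0, 1, k + 1) l = (1 - g) * t := by linarith
        exact mul_left_cancel₀ (by linarith) this
  obtain ⟨hfin, hval⟩ := h (g + (1 - g) * t) (by positivity) (by nlinarith) hgen
  have hne : ruleFrom lam (0, 1, k) [] ≠ g + (1 - g) * t := hgen []
  rw [payoff_step _ _ hne, hroot] at hfin hval
  have hans : answer g (g + (1 - g) * t) = true := by
    unfold answer; rw [if_pos hgt_lt]
  rw [hans, tl_ruleFrom, hstepT] at hfin hval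
  have haff : ruleFrom lam (g + (1 - g) * 0, g + (1 - g) * 1, k + 1) =
      fun l => g + (1 - g) * ruleFrom lam (0, 1, k + 1) l := by
    funext l; exact ruleFrom_affine lam g (1 - g) l 0 1 (k + 1)
  have hpay : payoff (ruleFrom lam (g + (1 - g) * 0, g + (1 - g) * 1, k + 1)) (g + (1 - g) * t) =
      ENNReal.ofReal (1 - g) * payoff (ruleFrom lam (0, 1, k + 1)) t := by
    rw [haff]
    exact payoff_affine (ruleFrom lam (0, 1, k + 1)) g (1 - g) (by linarith) t
  rw [hpay] at hfin hval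
  have hfin2 : payoff (ruleFrom lam (0, 1, k + 1)) t ≠ ⊤ := by
    intro hcon
    apply hfin
    rw [hcon, ENNReal.mul_top (by simpa using hg1)]
    simp
  refine ⟨hfin2, ?_⟩
  have h1g : 0 < 1 - g := by linarith
  rw [ENNReal.toReal_add ENNReal.ofReal_ne_top (ENNReal.mul_ne_top ENNReal.ofReal_ne_top hfin2),
    ENNReal.toReal_ofReal (abs_nonneg _), ENNReal.toReal_mul, ENNReal.toReal_ofReal h1g.le,
    abs_of_neg (by linarith)] at hval
  push_cast
  field_simp
  linarith

lemma Cst_nonneg (lam : ℤ → ℝ) (k : ℤ) (w : ℝ) (h : Cst lam k w) : 0 ≤ w ∧ (k : ℝ) ≤ w := by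
  have key : ∀ t, 0 < t → t < 1 → Gen lam k t → (k : ℝ) * t ≤ w := by
    intro t h0 h1 hg
    have := (h t h0 h1 hg).2
    have h2 : 0 ≤ (payoff (ruleFrom lam (0, 1, k)) t).toReal := ENNReal.toReal_nonneg
    linarith
  constructor
  · by_contra hw
    push Not at hw
    -- choose t small
    have hk : (0:ℝ) < |(k:ℝ)| + 1 := by positivity
    obtain ⟨t, h0, h1, hg⟩ := exists_gen lam k 0 (min 1 (-w / (|(k:ℝ)| + 1)))
      (lt_min one_pos (div_pos (by linarith) hk))
    have a := key t h0 (h1.trans_le (min_le_left _ _)) hg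
    have b : t < -w / (|(k:ℝ)| + 1) := h1.trans_le (min_le_right _ _)
    rw [lt_div_iff₀ hk] at b
    have c := neg_abs_le (k:ℝ)
    nlinarith
  · by_contra hw
    push Not at hw
    have hk : (0:ℝ) < |(k:ℝ)| + 1 := by positivity
    obtain ⟨t, h0, h1, hg⟩ := exists_gen lam k (max 0 (1 - ((k:ℝ) - w) / (|(k:ℝ)| + 1))) 1
      (max_lt one_pos (by
        have : 0 < ((k:ℝ) - w) / (|(k:ℝ)| + 1) := div_pos (by linarith) hk
        linarith))
    have a := key t ((le_max_left _ _).trans_lt h0) h1 hg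
    have b : 1 - ((k:ℝ) - w) / (|(k:ℝ)| + 1) < t := (le_max_right _ _).trans_lt h0
    have b' : (1 - t) < ((k:ℝ) - w) / (|(k:ℝ)| + 1) := by linarith
    rw [lt_div_iff₀ hk] at b'
    have c := le_abs_self (k:ℝ)
    nlinarith

lemma exists_Cst (lam : ℤ → ℝ) (hl : ∀ k, 0 < lam k ∧ lam k < 1) (w : ℝ) (h : Cst lam 0 w) :
    ∀ k : ℤ, ∃ w, Cst lam k w := by
  intro k
  induction k using Int.induction_on with
  | zero => exact ⟨w, h⟩
  | succ n ih => obtain ⟨w, hw⟩ := ih; exact ⟨_, Cst_right lam hl _ w hw⟩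
  | pred n ih => obtain ⟨w, hw⟩ := ih; exact ⟨_, Cst_left lam hl _ w hw⟩

/-- basic inequality of the lower bound iteration -/
lemma low_step (a a1 a2 τ m x y : ℝ) (hx : 0 ≤ x) (hy : 0 ≤ y) (hm : 0 ≤ m) (hτ : 0 ≤ τ)
    (hτ1 : τ ≤ 1) (h1 : x ≤ a1) (h2 : y ≤ a2) (e1 : a = τ * (1 + a2)) (e2 : m + a = (1 - τ) * (m + a1)) :
    (1 + y) * x ≤ a * (m + x + 1 + y) := by
  have i1 : τ * (1 + y) ≤ a := by rw [e1]; nlinarith
  have i2 : x - τ * (m + x) ≤ a := by nlinarith
  have p1 : 0 ≤ (m + x) * (a - τ * (1 + y)) := mul_nonneg (by linarith) (by linarith)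
  have p2 : 0 ≤ (1 + y) * (a - (x - τ * (m + x))) := mul_nonneg (by linarith) (by linarith)
  nlinarith

/-- Numerical lower bound: two half-sequences `a k = W k - k`, `b k = W (-k)`. -/
lemma low_num (a : ℕ → ℝ) (τ : ℕ → ℝ) (ha : ∀ k, 0 ≤ a k)
    (hτ : ∀ k, 0 ≤ τ k ∧ τ k ≤ 1) (e1 : ∀ k, a (k + 1) = τ (k + 1) * (1 + a (k + 2)))
    (e2 : ∀ k : ℕ, (k + 1) + a (k + 1) = (1 - τ (k + 1)) * ((k + 1) + a k)) (x0 : ℝ) (hx0 : 0 ≤ x0)
    (h0 : x0 ≤ a 0) :
    ∀ y1 y2 y3 : ℝ, 0 ≤ y1 → 0 ≤ y2 → 0 ≤ y3 → y1 ≤ a 1 → y2 ≤ a 2 → y3 ≤ a 3 →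
      (1 + y2) * x0 ≤ a 1 * (2 + x0 + y2) ∧ (1 + y3) * y1 ≤ a 2 * (3 + y1 + y3) ∧
      y2 ≤ a 3 * (4 + y2) := by
  intro y1 y2 y3 p1 p2 p3 q1 q2 q3
  have s1 := low_step (a 1) (a 0) (a 2) (τ 1) 1 x0 y2 hx0 p2 (by norm_num) (hτ 1).1 (hτ 1).2 h0 q2
    (e1 0) (by have := e2 0; push_cast at this; linarith)
  have s2 := low_step (a 2) (a 1) (a 3) (τ 2) 2 y1 y3 p1 p3 (by norm_num) (hτ 2).1 (hτ 2).2 q1 q3
    (e1 1) (by have := e2 1; push_cast at this; linarith)
  have s3 := low_step (a 3) (a 2) (a 4) (τ 3) 3 y2 0 p2 le_rfl (by norm_num) (hτ 3).1 (hτ 3).2 q2 (ha 4)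
    (e1 2) (by have := e2 2; push_cast at this; linarith)
  refine ⟨by linarith, by linarith, by linarith⟩

/-- one round of the lower bound iteration -/
lemma low_round (a : ℕ → ℝ) (τ : ℕ → ℝ) (ha : ∀ k, 0 ≤ a k)
    (hτ : ∀ k, 0 ≤ τ k ∧ τ k ≤ 1) (e1 : ∀ k, a (k + 1) = τ (k + 1) * (1 + a (k + 2)))
    (e2 : ∀ k : ℕ, (k + 1) + a (k + 1) = (1 - τ (k + 1)) * ((k + 1) + a k))
    (x0 y2 y3 z1 z2 z3 : ℝ) (hx0 : 0 ≤ x0) (p2 : 0 ≤ y2) (p3 : 0 ≤ y3) (q1 : 0 ≤ z1) (q2 : 0 ≤ z2)
    (h0 : x0 ≤ a 0) (r2 : y2 ≤ a 2) (r3 : y3 ≤ a 3)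
    (c1 : z1 * (2 + x0 + y2) ≤ (1 + y2) * x0) (c2 : z2 * (3 + z1 + y3) ≤ (1 + y3) * z1)
    (c3 : z3 * (4 + z2) ≤ z2) : z1 ≤ a 1 ∧ z2 ≤ a 2 ∧ z3 ≤ a 3 := by
  have t1 := (low_num a τ ha hτ e1 e2 x0 hx0 h0 0 y2 y3 le_rfl p2 p3 (ha 1) r2 r3).1
  have g1 : z1 ≤ a 1 := by
    have : z1 * (2 + x0 + y2) ≤ a 1 * (2 + x0 + y2) := c1.trans t1
    exact le_of_mul_le_mul_right this (by linarith)
  have t2 := (low_num a τ ha hτ e1 e2 x0 hx0 h0 z1 y2 y3 q1 p2 p3 g1 r2 r3).2.1
  have g2 : z2 ≤ a 2 := by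
    have : z2 * (3 + z1 + y3) ≤ a 2 * (3 + z1 + y3) := c2.trans t2
    exact le_of_mul_le_mul_right this (by linarith)
  have t3 := (low_num a τ ha hτ e1 e2 x0 hx0 h0 z1 z2 y3 q1 q2 p3 g1 g2 r3).2.2
  have g3 : z3 ≤ a 3 := by
    have : z3 * (4 + z2) ≤ a 3 * (4 + z2) := c3.trans t3
    exact le_of_mul_le_mul_right this (by linarith)
  exact ⟨g1, g2, g3⟩

lemma low_chain (a b τ σ : ℕ → ℝ) (g : ℝ) (ha : ∀ k, 0 ≤ a k) (hb : ∀ k, 0 ≤ b k)
    (hτ : ∀ k, 0 ≤ τ k ∧ τ k ≤ 1) (hσ : ∀ k, 0 ≤ σ k ∧ σ k ≤ 1) (hg : 0 ≤ g) (hg1 : g ≤ 1)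
    (e1 : ∀ k, a (k + 1) = τ (k + 1) * (1 + a (k + 2)))
    (e2 : ∀ k : ℕ, (k + 1) + a (k + 1) = (1 - τ (k + 1)) * ((k + 1) + a k))
    (f1 : ∀ k, b (k + 1) = σ (k + 1) * (1 + b (k + 2)))
    (f2 : ∀ k : ℕ, (k + 1) + b (k + 1) = (1 - σ (k + 1)) * ((k + 1) + b k))
    (hab : a 0 = b 0) (w1 : a 0 = g * (1 + b 1)) (w2 : a 0 = (1 - g) * (1 + a 1)) :
    (6243 : ℝ) / 10000 ≤ a 0 := by
  have half : ∀ x : ℝ, x ≤ a 1 → x ≤ b 1 → (1 + x) / 2 ≤ a 0 := by
    intro x h1 h2
    have i1 : g * (1 + x) ≤ a 0 := by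
      rw [w1]; exact mul_le_mul_of_nonneg_left (by linarith) hg
    have i2 : (1 - g) * (1 + x) ≤ a 0 := by
      rw [w2]; exact mul_le_mul_of_nonneg_left (by linarith) (by linarith)
    linarith
  have s0 := half 0 (ha 1) (hb 1)
  have A1 := low_round a τ ha hτ e1 e2 (1/2) 0 0 (1/5) (1/16) (15/1000) (by norm_num) le_rfl le_rfl
    (by norm_num) (by norm_num) (by linarith) (ha 2) (ha 3) (by norm_num) (by norm_num) (by norm_num)
  have B1 := low_round b σ hb hσ f1 f2 (1/2) 0 0 (1/5) (1/16) (15/1000) (by norm_num) le_rfl le_rfl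
    (by norm_num) (by norm_num) (by linarith) (hb 2) (hb 3) (by norm_num) (by norm_num) (by norm_num)
  have s1 := half _ A1.1 B1.1
  have A2 := low_round a τ ha hτ e1 e2 (3/5) (1/16) (15/1000) (2394/10000) (746/10000) (183/10000)
    (by norm_num) (by norm_num) (by norm_num) (by norm_num) (by norm_num) (by linarith) A1.2.1 A1.2.2
    (by norm_num) (by norm_num) (by norm_num)
  have B2 := low_round b σ hb hσ f1 f2 (3/5) (1/16) (15/1000) (2394/10000) (746/10000) (183/10000)
    (by norm_num) (by norm_num) (by norm_num) (by norm_num) (by norm_num) (by linarith) B1.2.1 B1.2.2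
    (by norm_num) (by norm_num) (by norm_num)
  have s2 := half _ A2.1 B2.1
  have A3 := low_round a τ ha hτ e1 e2 (6197/10000) (746/10000) (183/10000) (2471/10000) (770/10000)
    (188/10000) (by norm_num) (by norm_num) (by norm_num) (by norm_num) (by norm_num) (by linarith)
    A2.2.1 A2.2.2 (by norm_num) (by norm_num) (by norm_num)
  have B3 := low_round b σ hb hσ f1 f2 (6197/10000) (746/10000) (183/10000) (2471/10000) (770/10000)
    (188/10000) (by norm_num) (by norm_num) (by norm_num) (by norm_num) (by norm_num) (by linarith)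
    B2.2.1 B2.2.2 (by norm_num) (by norm_num) (by norm_num)
  have s3 := half _ A3.1 B3.1
  have A4 := low_round a τ ha hτ e1 e2 (62355/100000) (770/10000) (188/10000) (2486/10000) 0 0
    (by norm_num) (by norm_num) (by norm_num) (by norm_num) (by norm_num) (by linarith)
    A3.2.1 A3.2.2 (by norm_num) (by norm_num) (by norm_num)
  have B4 := low_round b σ hb hσ f1 f2 (62355/100000) (770/10000) (188/10000) (2486/10000) 0 0
    (by norm_num) (by norm_num) (by norm_num) (by norm_num) (by norm_num) (by linarith)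
    B3.2.1 B3.2.2 (by norm_num) (by norm_num) (by norm_num)
  have s4 := half _ A4.1 B4.1
  linarith

lemma alpern_lower (lam : ℤ → ℝ) (v : ℝ≥0∞) (h : IsAlpern lam v) :
    ENNReal.ofReal (6243 / 10000) ≤ v := by
  by_cases hv : v = ⊤
  · rw [hv]; exact le_top
  obtain ⟨hl, hp⟩ := h
  have h0 : Cst lam 0 v.toReal := by
    intro t h0 h1 hg
    have := hp t ⟨h0.le, h1.le⟩ hg
    unfold rule at this
    rw [this]
    exact ⟨hv, by simp⟩
  choose W hW using exists_Cst lam hl v.toReal h0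
  have hW0 : W 0 = v.toReal := Cst_unique lam 0 _ _ (hW 0) h0
  have R1 : ∀ k : ℤ, W k = (1 - lam k) * (1 + W (k - 1)) := by
    intro k
    have := Cst_unique lam (k - 1) _ _ (hW (k - 1)) (Cst_left lam hl k _ (hW k))
    have h1 : 0 < 1 - lam k := by linarith [(hl k).2]
    rw [this]
    field_simp
    ring
  have R2 : ∀ k : ℤ, W k = k * (1 - lam k) + lam k * W (k + 1) := by
    intro k
    have := Cst_unique lam (k + 1) _ _ (hW (k + 1)) (Cst_right lam hl k _ (hW k))
    have h1 : 0 < lam k := (hl k).1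
    rw [this]
    field_simp
    ring
  have N : ∀ k : ℤ, 0 ≤ W k ∧ (k : ℝ) ≤ W k := fun k => Cst_nonneg lam k _ (hW k)
  have key := low_chain (fun k => W k - k) (fun k => W (-(k : ℤ))) (fun k => lam k)
    (fun k => 1 - lam (-(k : ℤ))) (1 - lam 0)
    (fun k => by have := (N k).2; push_cast at this; linarith)
    (fun k => (N _).1)
    (fun k => ⟨(hl _).1.le, (hl _).2.le⟩)
    (fun k => ⟨by linarith [(hl (-(k:ℤ))).2], by linarith [(hl (-(k:ℤ))).1]⟩)
    (by linarith [(hl 0).2]) (by linarith [(hl 0).1])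
    (fun k => by
      have := R2 ((k + 1 : ℕ) : ℤ)
      have e : (((k + 1 : ℕ) : ℤ) + 1) = ((k + 2 : ℕ) : ℤ) := by push_cast; ring
      rw [e] at this
      push_cast at this ⊢
      linarith)
    (fun k => by
      have := R1 ((k + 1 : ℕ) : ℤ)
      have e : (((k + 1 : ℕ) : ℤ) - 1) = (k : ℤ) := by push_cast; ring
      rw [e] at this
      push_cast at this ⊢
      linarith)
    (fun k => by
      have := R1 (-((k + 1 : ℕ) : ℤ))
      have e : (-((k + 1 : ℕ) : ℤ) - 1) = -((k + 2 : ℕ) : ℤ) := by push_cast; ring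
      rw [e] at this
      exact this)
    (fun k => by
      have := R2 (-((k + 1 : ℕ) : ℤ))
      have e : (-((k + 1 : ℕ) : ℤ) + 1) = -(k : ℤ) := by push_cast; ring
      rw [e] at this
      push_cast at this ⊢
      linarith)
    (by simp)
    (by have := R1 0; simpa using this)
    (by have := R2 0; simp at this ⊢; linarith)
  have hfin : (6243 : ℝ) / 10000 ≤ v.toReal := by
    rw [← hW0]; simpa using key
  calc ENNReal.ofReal (6243 / 10000) ≤ ENNReal.ofReal v.toReal := ENNReal.ofReal_le_ofReal hfin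
    _ = v := ENNReal.ofReal_toReal hv

/-! ### Alpern's family exists -/

/-- the equalising operator -/
noncomputable def Fop (V : ℤ → ℝ) (k : ℤ) : ℝ :=
  (1 + V (k - 1)) * V (k + 1) / (1 + V (k - 1) + V (k + 1) - k)

/-- admissible functions -/
def Adm (V : ℤ → ℝ) : Prop := ∀ k : ℤ, 0 ≤ V k ∧ (k : ℝ) ≤ V k

lemma adm_facts (V : ℤ → ℝ) (h : Adm V) (k : ℤ) :
    (k : ℝ) ≤ 1 + V (k - 1) ∧ 1 ≤ 1 + V (k - 1) ∧ (k : ℝ) + 1 ≤ V (k + 1) ∧ 0 ≤ V (k + 1) ∧
      0 < 1 + V (k - 1) + V (k + 1) - k := by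
  have h1 := (h (k - 1)).1
  have h2 := (h (k - 1)).2
  have h3 := (h (k + 1)).1
  have h4 := (h (k + 1)).2
  push_cast at h2 h4
  refine ⟨by linarith, by linarith, by linarith, h3, ?_⟩
  rcases lt_or_ge (k : ℝ) 0 with hk | hk <;> linarith

lemma Fop_mono (V V' : ℤ → ℝ) (h : Adm V) (h' : Adm V') (hle : ∀ k, V k ≤ V' k) (k : ℤ) :
    Fop V k ≤ Fop V' k := by
  obtain ⟨a1, a2, a3, a4, a5⟩ := adm_facts V h k
  obtain ⟨b1, b2, b3, b4, b5⟩ := adm_facts V' h' k
  have c1 := hle (k - 1)
  have c2 := hle (k + 1)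
  unfold Fop
  rw [div_le_div_iff₀ a5 b5]
  set p := 1 + V (k - 1) with hp
  set q := V (k + 1) with hq
  obtain ⟨α, hα⟩ : ∃ α, V' (k - 1) = V (k - 1) + α := ⟨V' (k - 1) - V (k - 1), by ring⟩
  obtain ⟨β, hβ⟩ : ∃ β, V' (k + 1) = q + β := ⟨V' (k + 1) - q, by ring⟩
  have hα0 : 0 ≤ α := by linarith
  have hβ0 : 0 ≤ β := by linarith
  rw [hα, hβ]
  have e1 : 1 + (V (k - 1) + α) = p + α := by rw [hp]; ring
  rw [e1]
  have t1 : 0 ≤ α * q * (q - k) := mul_nonneg (mul_nonneg hα0 a4) (by linarith)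
  have t2 : 0 ≤ β * p * (p - k) := mul_nonneg (mul_nonneg hβ0 (by linarith)) (by linarith)
  have t3 : 0 ≤ α * β * (p + q - k) := mul_nonneg (mul_nonneg hα0 hβ0) a5.le
  nlinarith

lemma Fop_adm (V : ℤ → ℝ) (h : Adm V) : Adm (Fop V) := by
  intro k
  obtain ⟨a1, a2, a3, a4, a5⟩ := adm_facts V h k
  unfold Fop
  refine ⟨div_nonneg (mul_nonneg (by linarith) a4) a5.le, ?_⟩
  rw [le_div_iff₀ a5]
  nlinarith [mul_nonneg (sub_nonneg.2 a1) (show (0:ℝ) ≤ V (k + 1) - k by linarith)]

lemma U_adm : Adm U := fun k => ⟨U_nonneg k, le_U k⟩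

lemma Fop_U_le (k : ℤ) : Fop U k ≤ U k := by
  obtain ⟨a1, a2, a3, a4, a5⟩ := adm_facts U U_adm k
  unfold Fop
  rw [div_le_iff₀ a5]
  have h1 := U_left k
  have h2 := U_right k
  have t1 := mul_le_mul_of_nonneg_right h1 (show (0:ℝ) ≤ U (k + 1) - k by linarith)
  have t2 := mul_le_mul_of_nonneg_right h2 (show (0:ℝ) ≤ 1 + U (k - 1) by linarith)
  nlinarith

/-- supersolutions -/
def Sup (V : ℤ → ℝ) : Prop := Adm V ∧ ∀ k, Fop V k ≤ V k

lemma U_sup : Sup U := ⟨U_adm, Fop_U_le⟩

/-- the least supersolution -/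
noncomputable def WA (k : ℤ) : ℝ := sInf {x | ∃ V, Sup V ∧ V k = x}

lemma WA_le (V : ℤ → ℝ) (h : Sup V) (k : ℤ) : WA k ≤ V k := by
  apply csInf_le
  · refine ⟨0, ?_⟩
    rintro x ⟨V', h', rfl⟩
    exact (h'.1 k).1
  · exact ⟨V, h, rfl⟩

lemma le_WA (x : ℝ) (k : ℤ) (h : ∀ V, Sup V → x ≤ V k) : x ≤ WA k := by
  apply le_csInf
  · exact ⟨U k, U, U_sup, rfl⟩
  · rintro y ⟨V, hV, rfl⟩
    exact h V hV

lemma WA_adm : Adm WA := fun k =>
  ⟨le_WA _ _ fun _ hV => (hV.1 k).1, le_WA _ _ fun _ hV => (hV.1 k).2⟩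

lemma Fop_WA_le (k : ℤ) : Fop WA k ≤ WA k :=
  le_WA _ _ fun V hV => (Fop_mono WA V WA_adm hV.1 (fun j => WA_le V hV j) k).trans (hV.2 k)

lemma WA_eq (k : ℤ) : WA k = Fop WA k := by
  refine le_antisymm ?_ (Fop_WA_le k)
  exact WA_le _ ⟨Fop_adm _ WA_adm, fun j =>
    Fop_mono _ _ (Fop_adm _ WA_adm) WA_adm Fop_WA_le j⟩ k

lemma WA_pos (k : ℤ) : 0 < WA k := by
  have key : ∀ k : ℤ, 0 < WA (k + 1) → 0 < WA k := by
    intro k hk
    obtain ⟨a1, a2, a3, a4, a5⟩ := adm_facts WA WA_adm k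
    rw [WA_eq k]
    unfold Fop
    exact div_pos (mul_pos (by linarith) hk) a5
  have h1 : ∀ n : ℕ, 0 < WA ((n : ℤ) + 1) := by
    intro n
    have := (WA_adm ((n : ℤ) + 1)).2
    push_cast at this
    have : (0:ℝ) ≤ n := Nat.cast_nonneg n
    linarith
  induction k using Int.induction_on with
  | zero => exact key 0 (h1 0)
  | succ n _ => exact h1 n
  | pred n ih => exact key _ (by simpa using ih)

lemma WA_gt (k : ℤ) : (k : ℝ) < WA k := by
  have key : ∀ k : ℤ, ((k - 1 : ℤ) : ℝ) < WA (k - 1) → (k : ℝ) < WA k := by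
    intro k hk
    obtain ⟨a1, a2, a3, a4, a5⟩ := adm_facts WA WA_adm k
    push_cast at hk
    rw [WA_eq k]
    unfold Fop
    rw [lt_div_iff₀ a5]
    nlinarith [mul_pos (show (0:ℝ) < 1 + WA (k - 1) - k by linarith)
      (show (0:ℝ) < WA (k + 1) - k by linarith)]
  induction k using Int.induction_on with
  | zero => simpa using WA_pos 0
  | succ n ih => exact key _ (by simpa using ih)
  | pred n _ =>
    have := WA_pos (-(n : ℤ) - 1)
    push_cast
    have h2 : (0:ℝ) ≤ n := Nat.cast_nonneg n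
    linarith

/-- Alpern's family -/
noncomputable def lamA (k : ℤ) : ℝ :=
  (1 + WA (k - 1) - k) / (1 + WA (k - 1) + WA (k + 1) - k)

lemma lamA_compl (k : ℤ) : 1 - lamA k = WA (k + 1) / (1 + WA (k - 1) + WA (k + 1) - k) := by
  obtain ⟨a1, a2, a3, a4, a5⟩ := adm_facts WA WA_adm k
  unfold lamA
  field_simp
  ring

lemma lamA_mem (k : ℤ) : 0 < lamA k ∧ lamA k < 1 := by
  obtain ⟨a1, a2, a3, a4, a5⟩ := adm_facts WA WA_adm k
  have h1 := WA_gt (k - 1)
  push_cast at h1
  constructor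
  · exact div_pos (by linarith) a5
  · have : 0 < 1 - lamA k := by
      rw [lamA_compl]; exact div_pos (WA_pos _) a5
    linarith

lemma WA_left (k : ℤ) : WA k = (1 - lamA k) * (1 + WA (k - 1)) := by
  rw [lamA_compl, WA_eq k]
  unfold Fop
  ring

lemma WA_right (k : ℤ) : WA k = k * (1 - lamA k) + lamA k * WA (k + 1) := by
  obtain ⟨a1, a2, a3, a4, a5⟩ := adm_facts WA WA_adm k
  rw [lamA_compl]
  conv_lhs => rw [WA_eq k]
  unfold Fop lamA
  field_simp
  ring

lemma eps_le_quarter (n : ℕ) : eps (n + 1) ≤ 1 / 4 := by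
  match n with
  | 0 => norm_num [eps]
  | 1 => norm_num [eps]
  | n + 2 =>
    have : (1:ℝ) ≤ 2 ^ n := one_le_pow₀ (by norm_num)
    simp only [eps]
    rw [div_div, div_le_div_iff₀ (by positivity) (by norm_num)]
    linarith

/-- stepping up from `k ≥ 0` shrinks the interval by at least the factor `5/8` -/
lemma lamA_up (k : ℤ) (hk : 0 ≤ k) : lamA k ≤ 5 / 8 := by
  have h1 := WA_right k
  have h2 := WA_le U U_sup k
  have h3 := (WA_adm (k + 1)).2
  push_cast at h3
  obtain ⟨l0, l1⟩ := lamA_mem k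
  have h4 : lamA k ≤ WA k - k := by nlinarith
  obtain ⟨n, rfl⟩ := Int.eq_ofNat_of_zero_le hk
  have h5 : U (n : ℤ) = n + eps n := rfl
  rw [h5] at h2
  push_cast at h4
  have h6 : eps n ≤ 5 / 8 := by
    cases n with
    | zero => norm_num [eps]
    | succ n => exact (eps_le_quarter n).trans (by norm_num)
  linarith

/-- stepping down from `k ≤ 0` shrinks the interval by at least the factor `5/8` -/
lemma lamA_down (k : ℤ) (hk : k ≤ 0) : 1 - lamA k ≤ 5 / 8 := by
  have h1 := WA_left k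
  have h2 := WA_le U U_sup k
  have h3 := (WA_adm (k - 1)).1
  obtain ⟨l0, l1⟩ := lamA_mem k
  have h4 : 1 - lamA k ≤ WA k := by nlinarith
  have h6 : U k ≤ 5 / 8 := by
    rcases k with n | n
    · have : n = 0 := by
        have : (n : ℤ) ≤ 0 := hk
        omega
      subst this
      norm_num [U, eps]
    · have : U (Int.negSucc n) = eps (n + 1) := rfl
      rw [this]
      exact (eps_le_quarter n).trans (by norm_num)
  linarith

/-- remaining cost of the equalising rule -/
noncomputable def Rem (h x y : ℝ) (k : ℤ) : ℝ := (y - x) * WA k + k * x - k * h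

lemma Rem_nonneg (h x y : ℝ) (k : ℤ) (h1 : x ≤ h) (h2 : h ≤ y) : 0 ≤ Rem h x y k := by
  unfold Rem
  have a1 := (WA_adm k).1
  have a2 := (WA_adm k).2
  rcases le_total 0 (k : ℝ) with hk | hk
  · nlinarith [mul_nonneg hk (sub_nonneg.2 h2), mul_nonneg (sub_nonneg.2 a2) (sub_nonneg.2 (h1.trans h2))]
  · nlinarith [mul_nonneg (neg_nonneg.2 hk) (sub_nonneg.2 h1), mul_nonneg a1 (sub_nonneg.2 (h1.trans h2))]

lemma WA_le_abs (k : ℤ) : WA k ≤ max (k : ℝ) 0 + 1 := by
  have h2 := WA_le U U_sup k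
  refine h2.trans ?_
  have hq : ∀ n : ℕ, eps n ≤ 1 := by
    intro n
    cases n with
    | zero => norm_num [eps]
    | succ n => exact (eps_le_quarter n).trans (by norm_num)
  rcases k with n | n
  · have : U (Int.ofNat n) = n + eps n := rfl
    rw [this]
    have := hq n
    have h3 : ((Int.ofNat n : ℤ) : ℝ) ≤ max ((Int.ofNat n : ℤ) : ℝ) 0 := le_max_left _ _
    have h4 : ((Int.ofNat n : ℤ) : ℝ) = n := by simp
    rw [h4] at h3
    rw [h4]
    linarith
  · have : U (Int.negSucc n) = eps (n + 1) := rfl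
    rw [this]
    have h1 := hq (n + 1)
    have h3 : (0 : ℝ) ≤ max ((Int.negSucc n : ℤ) : ℝ) 0 := le_max_right _ _
    linarith

lemma Rem_le (h x y : ℝ) (k : ℤ) (h1 : x ≤ h) (h2 : h ≤ y) :
    Rem h x y k ≤ (y - x) * (k.natAbs + 1) := by
  unfold Rem
  have a1 := WA_le_abs k
  have hyx : 0 ≤ y - x := by linarith
  have a2 := mul_le_mul_of_nonneg_left a1 hyx
  have ek : ((k.natAbs : ℕ) : ℝ) = |(k : ℝ)| := by
    rw [Nat.cast_natAbs]; simp
  rw [ek]
  rcases le_total 0 (k : ℝ) with hk | hk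
  · rw [max_eq_left hk] at a2
    rw [abs_of_nonneg hk]
    nlinarith [mul_nonneg hk (sub_nonneg.2 h1)]
  · rw [max_eq_right hk] at a2
    rw [abs_of_nonpos hk]
    nlinarith [mul_nonneg (neg_nonneg.2 hk) (sub_nonneg.2 h2)]

lemma pow_bound (j : ℕ) : ((4 : ℝ) / 5) ^ j * (j + 1) ≤ 4 := by
  have h := one_add_mul_le_pow (show (-2 : ℝ) ≤ 1 / 4 by norm_num) j
  have e : ((4 : ℝ) / 5) ^ j * (1 + 1 / 4) ^ j = 1 := by
    rw [← mul_pow]; norm_num
  have hp : (0 : ℝ) < (4 / 5) ^ j := by positivity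
  have h2 := mul_le_mul_of_nonneg_left h hp.le
  rw [e] at h2
  nlinarith

lemma alp_le (h x y : ℝ) (k : ℤ) (h1 : x ≤ h) (h2 : h ≤ y) :
    payoff (ruleFrom lamA (x, y, k)) h ≤ ENNReal.ofReal (Rem h x y k) := by
  apply payoff_le_of_invariant h
    (fun s B => ∃ (x y : ℝ) (k : ℤ), x ≤ h ∧ h ≤ y ∧ s = ruleFrom lamA (x, y, k) ∧
      B = Rem h x y k)
  · rintro s B ⟨x, y, k, h1, h2, -, rfl⟩
    exact Rem_nonneg h x y k h1 h2
  · rintro s B ⟨x, y, k, h1, h2, rfl, rfl⟩ hne
    have hs : ruleFrom lamA (x, y, k) [] = lamA k * x + (1 - lamA k) * y := rfl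
    rw [hs] at hne ⊢
    rw [tl_ruleFrom]
    set g := lamA k * x + (1 - lamA k) * y with hg
    have hyx : 0 ≤ y - x := by linarith
    by_cases hlt : g < h
    · have ha : answer g h = true := by simp [answer, hlt]
      rw [ha]
      refine ⟨Rem h g y (k + 1), ⟨g, y, k + 1, hlt.le, h2, ?_, rfl⟩, ?_⟩
      · simp [step, hg]
      · rw [abs_of_neg (by linarith)]
        have := WA_right k
        unfold Rem
        push_cast
        have e1 : y - g = (y - x) * lamA k := by rw [hg]; ring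
        rw [e1]
        have e2 : g = x + (1 - lamA k) * (y - x) := by rw [hg]; ring
        rw [e2]
        rw [this]
        nlinarith
    · have ha : answer g h = false := by simp [answer, hlt]
      have hgt : h < g := lt_of_le_of_ne (not_lt.1 hlt) (Ne.symm hne)
      rw [ha]
      refine ⟨Rem h x g (k - 1), ⟨x, g, k - 1, h1, hgt.le, ?_, rfl⟩, ?_⟩
      · simp [step, hg]
      · rw [abs_of_pos (by linarith)]
        have := WA_left k
        unfold Rem
        push_cast
        have e1 : g - x = (y - x) * (1 - lamA k) := by rw [hg]; ring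
        have e2 : g = x + (1 - lamA k) * (y - x) := by rw [hg]; ring
        rw [e1, this]
        nlinarith
  · exact ⟨x, y, k, h1, h2, rfl, rfl⟩

lemma alp_ge (h : ℝ) (n : ℕ) : ∀ (x y : ℝ) (k : ℤ) (m : ℕ), x ≤ h → h ≤ y →
    (∀ l, ruleFrom lamA (x, y, k) l ≠ h) → y - x ≤ (4 / 5 : ℝ) ^ (m + k.natAbs) →
    ENNReal.ofReal (Rem h x y k) ≤
      (∑ i ∈ Finset.range n, term (ruleFrom lamA (x, y, k)) h i) +
        ENNReal.ofReal (4 * (4 / 5 : ℝ) ^ (m + n)) := by
  induction n with
  | zero =>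
    intro x y k m h1 h2 _ hlen
    simp only [Finset.range_zero, Finset.sum_empty, zero_add, Nat.add_zero]
    refine ENNReal.ofReal_le_ofReal ((Rem_le h x y k h1 h2).trans ?_)
    have hp : (0 : ℝ) < (4 / 5) ^ m := by positivity
    have hj := pow_bound k.natAbs
    rw [pow_add] at hlen
    have : (y - x) * ((k.natAbs : ℝ) + 1) ≤ (4 / 5 : ℝ) ^ m * (4 / 5) ^ k.natAbs * (k.natAbs + 1) :=
      mul_le_mul_of_nonneg_right hlen (by positivity)
    nlinarith
  | succ n ih =>
    intro x y k m h1 h2 hgen hlen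
    have hs : ruleFrom lamA (x, y, k) [] = lamA k * x + (1 - lamA k) * y := rfl
    have hne := hgen []
    rw [Finset.sum_range_succ']
    have hts : ∀ i, term (ruleFrom lamA (x, y, k)) h (i + 1) =
        term (tl (ruleFrom lamA (x, y, k)) (answer (ruleFrom lamA (x, y, k) []) h)) h i :=
      fun i => term_succ _ h i hne
    simp only [hts, term_zero]
    rw [hs] at hne ⊢
    rw [tl_ruleFrom]
    set g := lamA k * x + (1 - lamA k) * y with hg
    have hyx : 0 ≤ y - x := by linarith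
    obtain ⟨l0, l1⟩ := lamA_mem k
    have hpp : ∀ j : ℕ, (0 : ℝ) < (4 / 5) ^ j := fun j => by positivity
    by_cases hlt : g < h
    · have ha : answer g h = true := by simp [answer, hlt]
      rw [ha]
      have hst : step lamA (x, y, k) true = (g, y, k + 1) := by simp [step, hg]
      rw [hst]
      have e1 : y - g = (y - x) * lamA k := by rw [hg]; ring
      have hgen' : ∀ l, ruleFrom lamA (g, y, k + 1) l ≠ h := by
        intro l
        have := hgen (true :: l)
        have e : ruleFrom lamA (x, y, k) (true :: l) = ruleFrom lamA (step lamA (x, y, k) true) l := rfl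
        rw [e, hst] at this
        exact this
      have hlen' : y - g ≤ (4 / 5 : ℝ) ^ ((m + 1) + (k + 1).natAbs) := by
        rw [e1]
        rcases le_or_gt 0 k with hk | hk
        · have hn : (m + 1) + (k + 1).natAbs = (m + k.natAbs) + 2 := by omega
          rw [hn, pow_add]
          have := lamA_up k hk
          calc (y - x) * lamA k ≤ (4 / 5 : ℝ) ^ (m + k.natAbs) * (5 / 8) :=
                mul_le_mul hlen this l0.le (hpp _).le
            _ ≤ (4 / 5 : ℝ) ^ (m + k.natAbs) * (4 / 5) ^ 2 :=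
                mul_le_mul_of_nonneg_left (by norm_num) (hpp _).le
        · have hn : (m + 1) + (k + 1).natAbs = m + k.natAbs := by omega
          rw [hn]
          calc (y - x) * lamA k ≤ (y - x) * 1 := mul_le_mul_of_nonneg_left l1.le hyx
            _ ≤ _ := by rw [mul_one]; exact hlen
      have ih' := ih g y (k + 1) (m + 1) hlt.le h2 hgen' hlen'
      have hR : Rem h x y k = |g - h| + Rem h g y (k + 1) := by
        rw [abs_of_neg (by linarith)]
        have := WA_right k
        unfold Rem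
        push_cast
        rw [e1]
        have e2 : g = x + (1 - lamA k) * (y - x) := by rw [hg]; ring
        rw [e2, this]
        ring
      rw [hR, ENNReal.ofReal_add (abs_nonneg _) (Rem_nonneg h g y (k + 1) hlt.le h2)]
      have hmn : m + (n + 1) = m + 1 + n := by omega
      rw [hmn]
      calc ENNReal.ofReal |g - h| + ENNReal.ofReal (Rem h g y (k + 1)) ≤
          ENNReal.ofReal |g - h| + ((∑ i ∈ Finset.range n, term (ruleFrom lamA (g, y, k + 1)) h i) +
        ENNReal.ofReal (4 * (4 / 5 : ℝ) ^ (m + 1 + n))) := by gcongr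
        _ = _ := by ring
    · have ha : answer g h = false := by simp [answer, hlt]
      have hgt : h < g := lt_of_le_of_ne (not_lt.1 hlt) (Ne.symm hne)
      rw [ha]
      have hst : step lamA (x, y, k) false = (x, g, k - 1) := by simp [step, hg]
      rw [hst]
      have e1 : g - x = (y - x) * (1 - lamA k) := by rw [hg]; ring
      have hgen' : ∀ l, ruleFrom lamA (x, g, k - 1) l ≠ h := by
        intro l
        have := hgen (false :: l)
        have e : ruleFrom lamA (x, y, k) (false :: l) = ruleFrom lamA (step lamA (x, y, k) false) l := rfl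
        rw [e, hst] at this
        exact this
      have hlen' : g - x ≤ (4 / 5 : ℝ) ^ ((m + 1) + (k - 1).natAbs) := by
        rw [e1]
        rcases le_or_gt k 0 with hk | hk
        · have hn : (m + 1) + (k - 1).natAbs = (m + k.natAbs) + 2 := by omega
          rw [hn, pow_add]
          have := lamA_down k hk
          calc (y - x) * (1 - lamA k) ≤ (4 / 5 : ℝ) ^ (m + k.natAbs) * (5 / 8) :=
                mul_le_mul hlen this (by linarith) (hpp _).le
            _ ≤ (4 / 5 : ℝ) ^ (m + k.natAbs) * (4 / 5) ^ 2 :=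
                mul_le_mul_of_nonneg_left (by norm_num) (hpp _).le
        · have hn : (m + 1) + (k - 1).natAbs = m + k.natAbs := by omega
          rw [hn]
          calc (y - x) * (1 - lamA k) ≤ (y - x) * 1 := mul_le_mul_of_nonneg_left (by linarith) hyx
            _ ≤ _ := by rw [mul_one]; exact hlen
      have ih' := ih x g (k - 1) (m + 1) h1 hgt.le hgen' hlen'
      have hR : Rem h x y k = |g - h| + Rem h x g (k - 1) := by
        rw [abs_of_pos (by linarith)]
        have := WA_left k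
        unfold Rem
        push_cast
        rw [e1]
        have e2 : g = x + (1 - lamA k) * (y - x) := by rw [hg]; ring
        rw [e2]
        nlinarith
      rw [hR, ENNReal.ofReal_add (abs_nonneg _) (Rem_nonneg h x g (k - 1) h1 hgt.le)]
      have hmn : m + (n + 1) = m + 1 + n := by omega
      rw [hmn]
      calc ENNReal.ofReal |g - h| + ENNReal.ofReal (Rem h x g (k - 1)) ≤
          ENNReal.ofReal |g - h| + ((∑ i ∈ Finset.range n, term (ruleFrom lamA (x, g, k - 1)) h i) +
        ENNReal.ofReal (4 * (4 / 5 : ℝ) ^ (m + 1 + n))) := by gcongr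
        _ = _ := by ring

lemma alpern_exists : IsAlpern lamA (ENNReal.ofReal (WA 0)) := by
  refine ⟨lamA_mem, fun h hh hgen => ?_⟩
  have eR : Rem h 0 1 0 = WA 0 := by simp [Rem]
  refine le_antisymm ?_ ?_
  · have := alp_le h 0 1 0 hh.1 hh.2
    rw [eR] at this
    exact this
  · have h1 : ∀ n : ℕ, ENNReal.ofReal (WA 0) ≤ payoff (rule lamA) h +
        ENNReal.ofReal (4 * (4 / 5 : ℝ) ^ n) := by
      intro n
      have := alp_ge h n 0 1 0 0 hh.1 hh.2 hgen (by norm_num)
      rw [eR, zero_add] at this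
      refine this.trans ?_
      gcongr
      exact ENNReal.sum_le_tsum _
    have h2 : Filter.Tendsto (fun n : ℕ => payoff (rule lamA) h +
        ENNReal.ofReal (4 * (4 / 5 : ℝ) ^ n)) Filter.atTop (nhds (payoff (rule lamA) h + 0)) := by
      refine Filter.Tendsto.const_add _ ?_
      have : Filter.Tendsto (fun n : ℕ => 4 * (4 / 5 : ℝ) ^ n) Filter.atTop (nhds (4 * 0)) :=
        (tendsto_pow_atTop_nhds_zero_of_lt_one (by norm_num) (by norm_num)).const_mul 4
      have h3 := ENNReal.tendsto_ofReal this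
      simpa using h3
    have := ge_of_tendsto' h2 h1
    simpa using this

/-- Guesses of the mixture stay in the current interval. -/
lemma ruleT_mem (t : Tr) :
    ∀ (a b k : ℤ), a < b → wf t a b = true → ∀ l,
      (a : ℝ) / 28 ≤ ruleT t ((a : ℝ) / 28) ((b : ℝ) / 28) k l ∧
      ruleT t ((a : ℝ) / 28) ((b : ℝ) / 28) k l ≤ (b : ℝ) / 28 := by
  induction t with
  | E =>
    intro a b k hab _ l
    have hab' : (a : ℝ) / 28 < (b : ℝ) / 28 := by
      have : (a : ℝ) < b := by exact_mod_cast hab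
      linarith
    have e : ruleT Tr.E ((a : ℝ) / 28) ((b : ℝ) / 28) k l =
        ruleFrom lamC ((a : ℝ) / 28, (b : ℝ) / 28, k) l := by
      cases l <;> rfl
    rw [e]
    have := ruleFrom_mem lamC lamC_mem l ((a : ℝ) / 28) ((b : ℝ) / 28) k hab'
    exact ⟨this.1.le, this.2.le⟩
  | n g l r ihl ihr =>
    intro a b k hab hw l'
    simp only [wf, Bool.and_eq_true, decide_eq_true_eq] at hw
    obtain ⟨⟨⟨hag, hgb⟩, hwl⟩, hwr⟩ := hw
    have hag' : (a : ℝ) < g := by exact_mod_cast hag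
    have hgb' : (g : ℝ) < b := by exact_mod_cast hgb
    match l' with
    | [] =>
      have : ruleT (Tr.n g l r) ((a : ℝ) / 28) ((b : ℝ) / 28) k [] = (g : ℝ) / 28 := rfl
      rw [this]
      constructor <;> linarith
    | true :: l' =>
      have e : ruleT (Tr.n g l r) ((a : ℝ) / 28) ((b : ℝ) / 28) k (true :: l') =
          ruleT r (((g : ℤ) : ℝ) / 28) ((b : ℝ) / 28) (k + 1) l' := by
        simp [ruleT]
      rw [e]
      have := ihr g b (k + 1) hgb hwr l'
      push_cast at this ⊢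
      constructor
      · linarith [this.1]
      · exact this.2
    | false :: l' =>
      have e : ruleT (Tr.n g l r) ((a : ℝ) / 28) ((b : ℝ) / 28) k (false :: l') =
          ruleT l ((a : ℝ) / 28) (((g : ℤ) : ℝ) / 28) (k - 1) l' := by
        simp [ruleT]
      rw [e]
      have := ihl a g (k - 1) hag hwl l'
      push_cast at this ⊢
      constructor
      · exact this.1
      · linarith [this.2]

lemma sig_mem (s : List Bool → ℝ) (hs : s ∈ sig.support) (l : List Bool) :
    s l ∈ Set.Icc (0 : ℝ) 1 := by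
  unfold sig at hs
  rw [PMF.support_map] at hs
  obtain ⟨i, -, rfl⟩ := hs
  have := ruleT_mem (mix[i.1]).2 0 28 0 (by norm_num)
    (mix_wf _ (List.getElem_mem _)) l
  norm_num at this
  exact this

/-- Alpern's family exists with a finite common value, and some mixed searcher strategy guarantees
strictly less than the common value of any such family. -/
theorem result : (∃ (lam : ℤ → ℝ) (v : ℝ≥0∞), v ≠ ⊤ ∧ IsAlpern lam v) ∧
    ∃ σ : PMF (List Bool → ℝ), (∀ s ∈ σ.support, ∀ l, s l ∈ Set.Icc (0 : ℝ) 1) ∧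
      ∀ (lam : ℤ → ℝ) (v : ℝ≥0∞), IsAlpern lam v →
        (⨆ h ∈ Set.Icc (0 : ℝ) 1, cost σ h) < v := by
  refine ⟨⟨lamA, _, ENNReal.ofReal_ne_top, alpern_exists⟩, sig, fun s hs l => sig_mem s hs l,
    fun lam v hv => ?_⟩
  have h1 : (⨆ h ∈ Set.Icc (0 : ℝ) 1, cost sig h) ≤ ENNReal.ofReal (6233 / 10000) :=
    iSup₂_le fun h hh => sig_cost h hh.1 hh.2
  refine (h1.trans_lt ?_).trans_le (alpern_lower lam v hv)
  exact (ENNReal.ofReal_lt_ofReal_iff (by norm_num)).2 (by norm_num)

end Pool.Agent.Results.MP_a09a4b_an.MixedBeatsAlpern
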